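import Pool.Agent.Y557.U.Stm5

set_option autoImplicit false

/-!
# The Wronskian inequality for pairwise coprime polynomials with sum zero
-/

namespace Pool.Agent.Y31.U557

open Polynomial Pool.Agent.W515.SLP
open Pool.Agent.Y557.NF (rts)

variable {K : Type} [Field K]

lemma drop {n r : ℕ} (P : Fin n → K[X]) (i0 : Fin n) (e : Fin r → Fin n)
    (he : Function.Injective e) (hne : ∀ k, e k ≠ i0) (c : Fin r → K)
    (hc : P i0 = ∑ k, C (c k) * P (e k)) (k0 : Fin r) (hk : c k0 = 0) :
    ∃ r' < r, ∃ e : Fin r' → Fin n, Function.Injective e ∧ (∀ k, e k ≠ i0) ∧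
      ∃ c : Fin r' → K, P i0 = ∑ k, C (c k) * P (e k) := by
  cases r with
  | zero => exact k0.elim0
  | succ r' =>
    refine ⟨r', Nat.lt_succ_self _, e ∘ k0.succAbove, he.comp Fin.succAbove_right_injective,
      fun k => hne _, c ∘ k0.succAbove, ?_⟩
    rw [Fin.sum_univ_succAbove _ k0, hk, C_0, zero_mul, zero_add] at hc
    exact hc

lemma exists_min {n : ℕ} (P : Fin n → K[X]) (i0 : Fin n) (hsum : ∑ i, P i = 0) :
    ∃ r : ℕ, ∃ e : Fin r → Fin n, Function.Injective e ∧ (∀ k, e k ≠ i0) ∧
      (∃ c : Fin r → K, P i0 = ∑ k, C (c k) * P (e k)) ∧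
      ∀ c : Fin r → K, P i0 = ∑ k, C (c k) * P (e k) → ∀ k, c k ≠ 0 := by
  classical
  have hex : ∃ r : ℕ, ∃ e : Fin r → Fin n, Function.Injective e ∧ (∀ k, e k ≠ i0) ∧
      ∃ c : Fin r → K, P i0 = ∑ k, C (c k) * P (e k) := by
    cases n with
    | zero => exact i0.elim0
    | succ m =>
      refine ⟨m, i0.succAbove, Fin.succAbove_right_injective, fun k => Fin.succAbove_ne i0 k,
        fun _ => -1, ?_⟩
      rw [Fin.sum_univ_succAbove _ i0] at hsum
      rw [eq_neg_of_add_eq_zero_left hsum, ← Finset.sum_neg_distrib]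
      apply Finset.sum_congr rfl
      intro k _
      simp
  obtain ⟨e, he, hne, hc⟩ := Nat.find_spec hex
  refine ⟨Nat.find hex, e, he, hne, hc, ?_⟩
  intro c hc k0 hk0
  obtain ⟨r', hr', h⟩ := drop P i0 e he hne c hc k0 hk0
  exact Nat.find_min hex hr' h

lemma indep_of_min {n r : ℕ} (P : Fin n → K[X]) (i0 : Fin n) (e : Fin r → Fin n)
    (hc : ∃ c : Fin r → K, P i0 = ∑ k, C (c k) * P (e k))
    (hmin : ∀ c : Fin r → K, P i0 = ∑ k, C (c k) * P (e k) → ∀ k, c k ≠ 0) :
    LinearIndependent K fun k => P (e k) := by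
  obtain ⟨c, hc⟩ := hc
  rw [Fintype.linearIndependent_iff]
  intro g hg k0
  by_contra hk0
  refine hmin (fun k => c k - c k0 / g k0 * g k) ?_ k0 ?_
  · have h1 : ∑ k, C (c k - c k0 / g k0 * g k) * P (e k) =
        ∑ k, C (c k) * P (e k) - C (c k0 / g k0) * ∑ k, g k • P (e k) := by
      rw [Finset.mul_sum, ← Finset.sum_sub_distrib]
      apply Finset.sum_congr rfl
      intro k _
      rw [smul_eq_C_mul, C_sub, C_mul]
      ring
    rw [h1, hg, mul_zero, sub_zero]
    exact hc
  · show c k0 - c k0 / g k0 * g k0 = 0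
    rw [div_mul_cancel₀ _ hk0, sub_self]

/-- the degree of the Wronskian -/
lemma wmat_degree {r : ℕ} (hr : 2 ≤ r) (f : Fin r → K[X]) (hW : (wmat f).det ≠ 0) :
    (wmat f).det.natDegree + 1 ≤ ∑ k, (f k).natDegree := by
  classical
  have h1 : (wmat f).det.coeff (wmat f).det.natDegree ≠ 0 := by
    rw [coeff_natDegree]
    exact leadingCoeff_ne_zero.2 hW
  set N := (wmat f).det.natDegree with hN
  rw [Matrix.det_apply, finsetSum_coeff] at h1
  obtain ⟨σ, -, h2⟩ := Finset.exists_ne_zero_of_sum_ne_zero h1
  have h3 : (∏ i, (wmat f) (σ i) i).coeff N ≠ 0 := by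
    rcases Int.units_eq_one_or (Equiv.Perm.sign σ) with h | h
    · rw [h, one_smul] at h2
      exact h2
    · rw [h] at h2
      intro h4
      apply h2
      rw [Units.neg_smul, one_smul, coeff_neg, h4, neg_zero]
  have h4 : N ≤ ∑ i, ((wmat f) (σ i) i).natDegree :=
    (le_natDegree_of_ne_zero h3).trans (natDegree_prod_le _ _)
  have h5 : ∀ i, (wmat f) (σ i) i ≠ 0 := by
    intro i h
    apply h3
    have h4 : ∏ i, (wmat f) (σ i) i = 0 :=
      Finset.prod_eq_zero (f := fun i => (wmat f) (σ i) i) (Finset.mem_univ i) h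
    exact (congrArg (fun p : K[X] => p.coeff N) h4).trans (coeff_zero N)
  have h6 : ∀ i, ((wmat f) (σ i) i).natDegree ≤ (f i).natDegree := by
    intro i
    simp only [wmat, Matrix.of_apply]
    exact (natDegree_iterate_derivative _ _).trans (Nat.sub_le _ _)
  obtain ⟨i1, hi1⟩ : ∃ i, σ i = ⟨1, hr⟩ := ⟨σ.symm ⟨1, hr⟩, by simp⟩
  have h7 : ((wmat f) (σ i1) i1).natDegree < (f i1).natDegree := by
    have h8 := h5 i1
    simp only [wmat, Matrix.of_apply, hi1, Function.iterate_one] at h8 ⊢
    apply natDegree_derivative_lt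
    intro h9
    apply h8
    rw [eq_C_of_natDegree_eq_zero h9, derivative_C]
  exact Nat.succ_le_of_lt (lt_of_le_of_lt h4 (Finset.sum_lt_sum (fun i _ => h6 i)
    ⟨i1, Finset.mem_univ _, h7⟩))

theorem wr_holds (K : Type) [Field K] [CharZero K] : Pool.Agent.Y557.U.S_WR K := by
  classical
  intro n P D hP0 hspl hcop hsum hD0 hD
  obtain ⟨i0, hi0⟩ := hD0
  obtain ⟨r, e, he, hne, hc, hmin⟩ := exists_min P i0 hsum
  have hind := indep_of_min P i0 e hc hmin
  obtain ⟨c, hc⟩ := hc
  have hc0 := hmin c hc
  have hr2 : 2 ≤ r := by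
    by_contra h
    have h1 : r = 0 ∨ r = 1 := by omega
    rcases h1 with h1 | h1
    · subst h1
      rw [Finset.univ_eq_empty, Finset.sum_empty] at hc
      exact hP0 i0 hc
    · subst h1
      rw [Fin.sum_univ_one] at hc
      have h2 : IsUnit (P (e 0)) :=
        (hcop i0 (e 0) (hne 0).symm).isUnit_of_dvd' (hc ▸ dvd_mul_left _ _) dvd_rfl
      have h3 : (P i0).natDegree = 0 := by
        rw [hc]
        have h4 := natDegree_eq_zero_of_isUnit h2
        rw [natDegree_C_mul (hc0 0)]
        exact h4
      omega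
  -- the index map
  set ι : Option (Fin r) → Fin n := fun o => o.elim i0 e with hι
  have hιinj : Function.Injective ι := by
    rintro (_ | a) (_ | b) hab
    · rfl
    · exact absurd hab.symm (hne b)
    · exact absurd hab (hne a)
    · exact congrArg some (he hab)
  have hrn : r + 1 ≤ n := by
    have := Fintype.card_le_of_injective ι hιinj
    rwa [Fintype.card_option, Fintype.card_fin, Fintype.card_fin] at this
  refine ⟨by omega, ?_⟩
  set f : Fin r → K[X] := fun k => P (e k) with hf
  have hW : (wmat f).det ≠ 0 := wmat_det_ne_zero f hind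
  have hdeg := wmat_degree hr2 f hW
  set W := (wmat f).det with hWdef
  set R := rts P with hR
  have hmemR : ∀ i, ∀ a ∈ (P i).roots, a ∈ R := by
    intro i a ha
    rw [hR]
    unfold rts
    rw [Multiset.mem_toFinset, mem_roots (Finset.prod_ne_zero_iff.2 fun i _ => hP0 i), IsRoot.def,
      eval_prod, Finset.prod_eq_zero_iff]
    exact ⟨i, Finset.mem_univ _, (mem_roots (hP0 i)).1 ha⟩
  -- multiplicities
  have hmult : ∀ a : K, ∑ o, (P (ι o)).roots.count a ≤ (r - 1) + W.roots.count a := by
    intro a
    by_cases hall : ∀ o, (P (ι o)).roots.count a = 0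
    · rw [Finset.sum_eq_zero fun o _ => hall o]
      exact Nat.zero_le _
    · push Not at hall
      obtain ⟨o, ho⟩ := hall
      have hroot : (P (ι o)).eval a = 0 := by
        have h1 := Multiset.count_ne_zero.1 ho
        exact (mem_roots (hP0 _)).1 h1
      rw [Finset.sum_eq_single o]
      · have key : (X - C a) ^ ((P (ι o)).roots.count a - (r - 1)) ∣ W := by
          rw [count_roots]
          have hdv := pow_rootMultiplicity_dvd (P (ι o)) a
          cases o with
          | none =>
            have h1 := pow_dvd_wmat_det (Function.update f ⟨0, by omega⟩ (∑ j, C (c j) * f j))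
              (X - C a) (rootMultiplicity a (P (ι none))) {⟨0, by omega⟩} (by
                intro j hj
                rw [Finset.mem_singleton] at hj
                rw [hj, Function.update_self]
                have h2 : ∑ j, C (c j) * f j = P (ι none) := hc.symm
                rw [h2]
                exact hdv)
            rw [wmat_update, Finset.card_singleton, one_mul] at h1
            have hu : IsUnit (C (c ⟨0, by omega⟩)) :=
              isUnit_C.2 (isUnit_iff_ne_zero.2 (hc0 ⟨0, by omega⟩))
            exact (hu.dvd_mul_left).1 h1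
          | some k =>
            have h1 := pow_dvd_wmat_det f (X - C a) (rootMultiplicity a (P (ι (some k)))) {k} (by
              intro j hj
              rw [Finset.mem_singleton] at hj
              rw [hj]
              exact hdv)
            rw [Finset.card_singleton, one_mul] at h1
            exact h1
        have h2 := (le_rootMultiplicity_iff hW).2 key
        rw [← count_roots] at h2
        omega
      · intro o' _ ho'
        rw [Multiset.count_eq_zero]
        intro h1
        have h2 : (P (ι o')).eval a = 0 := (mem_roots (hP0 _)).1 h1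
        obtain ⟨u, v, huv⟩ := hcop (ι o') (ι o) (fun h => ho' (hιinj h))
        have h3 := congrArg (eval a) huv
        rw [eval_add, eval_mul, eval_mul, h2, hroot, mul_zero, mul_zero, add_zero, eval_one] at h3
        exact zero_ne_one h3
      · intro h
        exact absurd (Finset.mem_univ o) h
  have htot : D + ∑ k, (f k).natDegree = ∑ a ∈ R, ∑ o, (P (ι o)).roots.count a := by
    rw [Finset.sum_comm]
    have h1 : ∀ o, ∑ a ∈ R, (P (ι o)).roots.count a = (P (ι o)).natDegree := by
      intro o
      rw [Multiset.sum_count_eq_card (hmemR (ι o)), (hspl (ι o)).natDegree_eq_card_roots]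
    rw [Finset.sum_congr rfl fun o _ => h1 o, Fintype.sum_option]
    show D + _ = (P i0).natDegree + _
    rw [hi0]
    rfl
  have hWr : ∑ a ∈ R, W.roots.count a ≤ W.natDegree := by
    refine le_trans ?_ (card_roots' W)
    rw [← Multiset.toFinset_sum_count_eq]
    apply Finset.sum_le_sum_of_ne_zero
    intro a _ ha
    rw [Multiset.mem_toFinset]
    exact Multiset.count_ne_zero.1 ha
  have hfin : D + ∑ k, (f k).natDegree ≤ R.card * (r - 1) + W.natDegree := by
    rw [htot]
    refine (Finset.sum_le_sum fun a _ => hmult a).trans ?_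
    rw [Finset.sum_add_distrib, Finset.sum_const, smul_eq_mul]
    exact Nat.add_le_add_left hWr _
  have h1 : D + 1 ≤ R.card * (r - 1) := by omega
  refine h1.trans ?_
  rw [mul_comm]
  exact Nat.mul_le_mul_right _ (by omega)

end Pool.Agent.Y31.U557
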